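import Pool.Agent.Lib.MP_89119d_gt.Main
import Pool.Agent.Lib.MP_89119d_gt.Cpl

namespace Pool.Agent.Results.MP_89119d_gt.SingularNonzeroH

open Pool.Agent.Lib.MP_89119d_gt

/-- For every `h > 0` there are a complete connected smooth Riemannian manifold `(M, g)` (an open
subset of some `ℝ^ι`) and an isoperimetric region `Ω` in it whose boundary has a nonempty singular
set and constant mean curvature `h`. -/
theorem result (h : ℝ) (hh : 0 < h) : ∃ (ι : Type) (_ : Fintype ι) (_ : DecidableEq ι)
    (M : Set (ι → ℝ)) (g : (ι → ℝ) → Matrix ι ι ℝ) (Ω : Set (ι → ℝ)),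
    IsRiemannianOn M g ∧ IsConnected M ∧ IsCompleteRiemannian M g ∧
    IsIsoperimetricRegion M g Ω ∧ (singularSet M g Ω).Nonempty ∧ (regularPart M g Ω).Nonempty ∧
    HasConstantMeanCurvature M g Ω h := by
  have hm : 10000000 ≤ 10000000 := le_rfl
  have hm1 : 1 ≤ 10000000 := by norm_num
  have hg := isRiemannianOn_gg (m := 10000000) hm hh
  obtain ⟨v, hv, hs, hF⟩ := exists_regular (m := 10000000) hm1
  refine ⟨J 10000000, inferInstance, inferInstance, MM 10000000, gg 10000000 h, Om 10000000,
    hg, isConnected_MM, isCompleteRiemannian_gg hm hh, isIsoperimetricRegion_Om hm hh,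
    ⟨0, mem_singularSet hg hm1 (by simp [cs, cA, cB])⟩, ⟨v, mem_regularPart hg hm1 hv hs hF⟩,
    hasConstantMeanCurvature_Om hm hh⟩

end Pool.Agent.Results.MP_89119d_gt.SingularNonzeroH
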